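import Pool.Agent.W761.CC.Stms
import Pool.Agent.W762.CB.Bot
import Pool.Agent.W21.CB.Base

/-!
# Project CC: the lower bound of the amplitudes at the last scale
-/

set_option autoImplicit false

open MeasureTheory
open scoped ENNReal

namespace Pool.Agent.W160.CC

open Pool.Agent.W761.CB Pool.Agent.W761.CC

variable {X : Type} [MeasurableSpace X]

theorem pf_ge (s t : ℝ) (hs : s ≤ 3) : 2 * s * t - s ^ 2 ≤ pf t := by
  unfold pf
  split_ifs with h
  · nlinarith [sq_nonneg (t - s)]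
  · push Not at h
    nlinarith [mul_nonneg (sub_nonneg.2 hs) (by linarith : 0 ≤ 2 * t - 3 - s)]

theorem pf_eq (t : ℝ) : pf t = 2 * min t 3 * t - (min t 3) ^ 2 := by
  unfold pf
  split_ifs with h
  · rw [min_eq_left h]; ring
  · push Not at h
    rw [min_eq_right h.le]; ring

theorem sqrt_ge {t : ℝ} (ht : 0 ≤ t) : (3 * t - pf t) / 2 ≤ √t := by
  have hs := Real.sqrt_nonneg t
  have h2 := Real.sq_sqrt ht
  set s := √t with hsd
  unfold pf
  split_ifs with h
  · have h3 := mul_nonneg hs (mul_nonneg (sq_nonneg (s - 1)) (by linarith : 0 ≤ s + 2))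
    rw [← h2]
    nlinarith
  · push Not at h
    linarith

theorem sum_counts {I : Type} [Fintype I] (u : I → X → ℝ) (hu : ∀ i x, 0 ≤ u i x)
    (h1 : ∀ x, ∑ i, u i x = 1) (S : Multiset X) :
    ∑ i, ENNReal.ofReal (S.map (u i)).sum = (Multiset.card S : ℝ≥0∞) := by
  have h : ∑ i, (S.map (u i)).sum = (Multiset.card S : ℝ) := by
    induction S using Multiset.induction_on with
    | empty => simp
    | cons x S ih =>
      simp only [Multiset.map_cons, Multiset.sum_cons, Multiset.card_cons]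
      rw [Finset.sum_add_distrib, h1, ih]
      push_cast
      ring
  rw [← ENNReal.ofReal_sum_of_nonneg
    (fun i _ => (Pool.Agent.W762.CB.sum_ofReal (u i) (hu i) S).2), h, ENNReal.ofReal_natCast]

/-- the local particle numbers sum up to the particle number -/
theorem mecke_sum (ν : Measure X) [IsFiniteMeasure ν] {I : Type} [Fintype I] (u : I → X → ℝ)
    (hm : ∀ i, Measurable (u i)) (hu : ∀ i x, 0 ≤ u i x) (h1 : ∀ x, ∑ i, u i x = 1)
    (F : Multiset X → ℂ) (hF : EB F) :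
    ∑ i, ∫⁻ γ, ENNReal.ofReal ((ms γ).map (u i)).sum * ‖F (ms γ)‖ₑ ^ 2 ∂(lam ν) = nuE ν F := by
  have hMs := Pool.Agent.W975.CB.proof_ms
  have hL := Pool.Agent.W366.CB.proof_lam hMs
  have hMe := Pool.Agent.W337.CB.proof_mecke hMs hL
  obtain ⟨-, -, -, hsum, -⟩ := hMs X
  have hn : ∀ i, Measurable fun γ : Cf X => ((ms γ).map (u i)).sum := by
    intro i
    have h2 := hsum Unit (fun _ => u i) ((hm i).comp measurable_snd)
    exact h2.comp (measurable_prodMk_left (x := ()))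
  have hFm : Measurable fun γ : Cf X => ‖F (ms γ)‖ₑ ^ 2 := (hF.meas.enorm).pow_const 2
  have hs := lintegral_finsetSum (μ := lam ν) Finset.univ
    (f := fun i γ => ENNReal.ofReal ((ms γ).map (u i)).sum * ‖F (ms γ)‖ₑ ^ 2)
    fun i _ => (hn i).ennreal_ofReal.mul hFm
  rw [← hs]
  have key := hMe X ν (fun _ S => ‖F S‖ₑ ^ 2) (hFm.comp measurable_snd)
  unfold nuE nE an
  rw [← key]
  refine lintegral_congr fun γ => ?_
  rw [← Finset.sum_mul, sum_counts u hu h1, Multiset.map_const', Multiset.sum_replicate,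
    nsmul_eq_mul]

theorem lin (ν : Measure X) [IsFiniteMeasure ν] (u : X → ℝ) (hu : ∀ x, 0 ≤ u x) (M ρ : ℝ)
    (hM0 : 0 < M) (hρ : 0 < ρ) (F : Multiset X → ℂ) (hF : EB F) (c : ℝ) (hc0 : 0 ≤ c)
    (hc3 : c ≤ 3) :
    ENNReal.ofReal (2 * c / (M * ρ)) *
        ∫⁻ γ, ENNReal.ofReal ((ms γ).map u).sum * ‖F (ms γ)‖ₑ ^ 2 ∂(lam ν) ≤
      (∫⁻ γ, ENNReal.ofReal (pf (((ms γ).map u).sum / (M * ρ))) * ‖F (ms γ)‖ₑ ^ 2 ∂(lam ν)) +
        ENNReal.ofReal (c ^ 2) * nE ν F := by
  have hFm : Measurable fun γ : Cf X => ‖F (ms γ)‖ₑ ^ 2 := (hF.meas.enorm).pow_const 2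
  unfold nE
  rw [← lintegral_const_mul' _ _ ENNReal.ofReal_ne_top,
    ← lintegral_const_mul' _ _ ENNReal.ofReal_ne_top, ← lintegral_add_right _ (hFm.const_mul _)]
  refine lintegral_mono fun γ => ?_
  rw [← mul_assoc, ← add_mul, ← ENNReal.ofReal_mul (by positivity)]
  refine mul_le_mul_left ?_ _
  have h0 := (Pool.Agent.W762.CB.sum_ofReal u hu (ms γ)).2
  set k : ℝ := ((ms γ).map u).sum
  have h1 := pf_ge c (k / (M * ρ)) hc3
  have h2 : 2 * c / (M * ρ) * k = 2 * c * (k / (M * ρ)) := by ring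
  rw [h2]
  refine (ENNReal.ofReal_le_ofReal (by linarith : 2 * c * (k / (M * ρ)) ≤
    pf (k / (M * ρ)) + c ^ 2)).trans ENNReal.ofReal_add_le

/-- one pair `(i, α)` -/
theorem one_pair (ν : Measure X) [IsFiniteMeasure ν] (u : X → ℝ) (hm : Measurable u)
    (hu : ∀ x, 0 ≤ u x) (hu1 : ∀ x, u x ≤ 1) (M ρ : ℝ) (hM : ∫ x, u x ∂ν = M) (hM0 : 0 < M)
    (hρ : 0 < ρ) (z : ℂ) (F : Multiset X → ℂ) (hF : EB F) :
    ENNReal.ofReal (3 * √ρ / (2 * M * ρ)) * nE ν (ag ν u F) ≤
      nE ν F * ‖z‖ₑ + (nE ν F) ^ (1 / 2 : ℝ) * (dev ν u z F) ^ (1 / 2 : ℝ) +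
      ENNReal.ofReal (√ρ * M / 2) *
        ∫⁻ γ, ENNReal.ofReal (pf (((ms γ).map u).sum / (M * ρ))) * ‖F (ms γ)‖ₑ ^ 2 ∂(lam ν) := by
  have hMs := Pool.Agent.W975.CB.proof_ms
  have hL := Pool.Agent.W366.CB.proof_lam hMs
  have hE := Pool.Agent.W417.CB.proof_ebc hMs hL
  have hfin := (hL X ν).2.2.2.2.1
  have hag : EB (ag ν u F) := (hE X ν F F hF hF).2.2.2.1 u hm ⟨1, fun x => by
    rw [abs_of_nonneg (hu x)]; exact hu1 x⟩
  have hres : EB (fun S => ag ν u F S - z * F S) := by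
    have h1 := (hE X ν (ag ν u F) F hag hF).2.2.1 1 (-z)
    have h2 : (fun S => ag ν u F S - z * F S) = fun S => 1 * ag ν u F S + -z * F S := by
      funext S
      ring
    rw [h2]
    exact h1
  have hzF : EB (fun S => z * F S) := by
    have h1 := (hE X ν F F hF hF).2.2.1 z 0
    simpa using h1
  have hρs : 0 < √ρ := Real.sqrt_pos.2 hρ
  -- the Mecke formula
  have hmec := Pool.Agent.W762.CB.mecke_cs ν u hm hu hu1 M hM F hF 1 1 measurable_one
    (fun _ _ _ => le_refl _)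
  simp only [Pi.one_apply, one_mul] at hmec
  change nE ν (ag ν u F) ≤ _ at hmec
  -- the triangle inequality
  have htri := Pool.Agent.W21.CB.nE_tri ν _ _ hag hzF
  rw [Pool.Agent.W21.CB.nE_smul ν F hF z] at htri
  have hdev : nE ν (fun S => z * F S - ag ν u F S) = dev ν u z F := by
    unfold dev nE
    refine lintegral_congr fun γ => ?_
    rw [← enorm_neg]
    congr 2
    ring
  rw [hdev] at htri
  set G := ∫⁻ γ, ENNReal.ofReal (pf (((ms γ).map u).sum / (M * ρ))) * ‖F (ms γ)‖ₑ ^ 2 ∂(lam ν)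
    with hG
  by_cases hGt : G = ⊤
  · rw [hGt, ENNReal.mul_top (by
      rw [Ne, ENNReal.ofReal_eq_zero, not_le]; positivity)]
    simp
  obtain ⟨s, hs0, hs⟩ : ∃ s : ℝ, 0 ≤ s ∧ nE ν F = ENNReal.ofReal s :=
    ⟨_, ENNReal.toReal_nonneg, (ENNReal.ofReal_toReal (hfin F hF).ne).symm⟩
  obtain ⟨l, hl0, hl⟩ : ∃ s : ℝ, 0 ≤ s ∧ nE ν (ag ν u F) = ENNReal.ofReal s :=
    ⟨_, ENNReal.toReal_nonneg, (ENNReal.ofReal_toReal (hfin _ hag).ne).symm⟩
  obtain ⟨d, hd0, hd⟩ : ∃ s : ℝ, 0 ≤ s ∧ dev ν u z F = ENNReal.ofReal s :=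
    ⟨_, ENNReal.toReal_nonneg, (ENNReal.ofReal_toReal (hfin _ hres).ne).symm⟩
  obtain ⟨g, hg0, hg⟩ : ∃ s : ℝ, 0 ≤ s ∧ G = ENNReal.ofReal s :=
    ⟨_, ENNReal.toReal_nonneg, (ENNReal.ofReal_toReal hGt).symm⟩
  have hhalf : ∀ x : ℝ, 0 ≤ x → (ENNReal.ofReal x) ^ (1 / 2 : ℝ) = ENNReal.ofReal (√x) := by
    intro x hx
    rw [ENNReal.ofReal_rpow_of_nonneg hx (by norm_num), Real.sqrt_eq_rpow]
  have hz : ‖z‖ₑ = ENNReal.ofReal ‖z‖ := (ofReal_norm z).symm
  -- the linear bounds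
  have hlin : ∀ c : ℝ, 0 ≤ c → c ≤ 3 → 2 * c * (l / (M ^ 2 * ρ)) ≤ g + c ^ 2 * s := by
    intro c hc0 hc3
    have h1 := lin ν u hu M ρ hM0 hρ F hF c hc0 hc3
    rw [← hG, hg, hs, ← ENNReal.ofReal_mul (by positivity),
      ← ENNReal.ofReal_add hg0 (by positivity)] at h1
    have h2 : ENNReal.ofReal (2 * c * (l / (M ^ 2 * ρ))) ≤ ENNReal.ofReal (g + c ^ 2 * s) := by
      refine le_trans ?_ h1
      have h3 : ENNReal.ofReal (2 * c / (M ^ 2 * ρ)) * ENNReal.ofReal l ≤
          ENNReal.ofReal (2 * c / (M ^ 2 * ρ)) * (ENNReal.ofReal M *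
            ∫⁻ γ, ENNReal.ofReal ((ms γ).map u).sum * ‖F (ms γ)‖ₑ ^ 2 ∂(lam ν)) := by
        rw [← hl]
        exact mul_le_mul_right hmec _
      rw [← ENNReal.ofReal_mul (by positivity), ← mul_assoc,
        ← ENNReal.ofReal_mul (by positivity)] at h3
      have e1 : 2 * c / (M ^ 2 * ρ) * l = 2 * c * (l / (M ^ 2 * ρ)) := by ring
      have e2 : 2 * c / (M ^ 2 * ρ) * M = 2 * c / (M * ρ) := by
        field_simp
      rw [e1, e2] at h3
      exact h3
    exact (ENNReal.ofReal_le_ofReal_iff (by positivity)).1 h2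
  -- the triangle inequality in real numbers
  have htri' : √l ≤ ‖z‖ * √s + √d := by
    rw [hl, hs, hd, hz, ← ENNReal.ofReal_pow (norm_nonneg z), ← ENNReal.ofReal_mul (by positivity),
      hhalf l hl0, hhalf d hd0, hhalf _ (by positivity), ← ENNReal.ofReal_add (by positivity)
      (by positivity), ENNReal.ofReal_le_ofReal_iff (by positivity), Real.sqrt_mul (by positivity),
      Real.sqrt_sq (norm_nonneg z)] at htri
    exact htri
  have hmain : √ρ / 2 * (3 * l / (M * ρ) - M * g) ≤ √s * √l := by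
    rcases hs0.eq_or_lt with h0 | h0
    · have h1 := hlin 3 (by norm_num) le_rfl
      rw [← h0] at h1 ⊢
      rw [Real.sqrt_zero, zero_mul]
      have h2 : 3 * l / (M * ρ) = M * (3 * (l / (M ^ 2 * ρ))) := by
        field_simp
      have h3 : 0 ≤ l / (M ^ 2 * ρ) := by positivity
      have h4 : M * (3 * (l / (M ^ 2 * ρ))) ≤ M * g :=
        mul_le_mul_of_nonneg_left (by linarith) hM0.le
      rw [h2]
      have h5 : 0 ≤ √ρ / 2 := by positivity
      nlinarith
    · set t := l / (M ^ 2 * ρ * s) with ht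
      have ht0 : 0 ≤ t := by positivity
      have hsq : √s * √l = s * M * √ρ * √t := by
        rw [← Real.sqrt_mul hs0]
        have e : s * l = (s * M) ^ 2 * (ρ * t) := by
          rw [ht]; field_simp
        rw [e, Real.sqrt_mul (by positivity), Real.sqrt_sq (by positivity), Real.sqrt_mul hρ.le]
        ring
      have hJ : s * pf t ≤ g := by
        have h1 := hlin (min t 3) (le_min ht0 (by norm_num)) (min_le_right _ _)
        have h2 : l / (M ^ 2 * ρ) = t * s := by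
          rw [ht]; field_simp
        rw [h2] at h1
        rw [pf_eq]
        nlinarith
      rw [hsq]
      have h1 := sqrt_ge ht0
      have h2 : s * M * √ρ * ((3 * t - pf t) / 2) ≤ s * M * √ρ * √t :=
        mul_le_mul_of_nonneg_left h1 (by positivity)
      refine le_trans ?_ h2
      have e1 : 3 * l / (M * ρ) = 3 * (s * M * t) := by
        rw [ht]; field_simp
      rw [e1]
      have h3 : √ρ / 2 * (M * (s * pf t)) ≤ √ρ / 2 * (M * g) :=
        mul_le_mul_of_nonneg_left (mul_le_mul_of_nonneg_left hJ hM0.le) (by positivity)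
      nlinarith
  have h5 := mul_le_mul_of_nonneg_left htri' (Real.sqrt_nonneg s)
  have h6 : √s * (‖z‖ * √s) = s * ‖z‖ := by
    rw [show √s * (‖z‖ * √s) = (√s * √s) * ‖z‖ by ring, Real.mul_self_sqrt hs0]
  rw [hl, hs, hd, hg, hz, hhalf s hs0, hhalf d hd0, ← ENNReal.ofReal_mul (by positivity),
    ← ENNReal.ofReal_mul hs0, ← ENNReal.ofReal_mul (by positivity),
    ← ENNReal.ofReal_mul (by positivity), ← ENNReal.ofReal_add (by positivity) (by positivity),
    ← ENNReal.ofReal_add (by positivity) (by positivity)]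
  refine ENNReal.ofReal_le_ofReal ?_
  have h7 : 3 * √ρ / (2 * M * ρ) * l = √ρ / 2 * (3 * l / (M * ρ)) := by
    field_simp
  rw [h7]
  nlinarith

/-- the lower bound of the amplitudes at the last scale (`S_BOT2` with the hypothesis `0 ≤ Nhi`) -/
def S_BOT2' : Prop := ∀ (X : Type) [MeasurableSpace X] (ν : Measure X) [IsFiniteMeasure ν]
    (I : Type) [Fintype I] (en : (Multiset X → ℂ) → ℝ≥0∞) (u : I → X → ℝ)
    (M P ρ a a₂ N Nhi E R B V : ℝ),
  (∀ i, Measurable (u i)) → (∀ i x, 0 ≤ u i x) → (∀ i x, u i x ≤ 1) → (∀ x, ∑ i, u i x = 1) →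
  (∀ i, ∫ x, u i x ∂ν = M) → 0 < M → 0 ≤ P → 0 < ρ → 0 ≤ a → 0 ≤ a₂ → 0 ≤ N → 0 ≤ Nhi →
  0 ≤ E → 0 ≤ R → 0 ≤ B → 0 < V → V = (ν Set.univ).toReal →
  (∀ F, EB F → ENNReal.ofReal M * nuE ν F ≤
    ∑ i, nE ν (ag ν (u i) F) + ENNReal.ofReal (M * P) * en F) →
  (∀ F, EB F → ENNReal.ofReal M * ∑ i, ∫⁻ γ,
      ENNReal.ofReal (pf (((ms γ).map (u i)).sum / (M * ρ))) * ‖F (ms γ)‖ₑ ^ 2 ∂(lam ν) ≤
    ENNReal.ofReal a * en F + ENNReal.ofReal (a₂ * V) * nE ν F) →
  HasEns ν en u N Nhi E R B →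
  ∃ N' : ℝ, N ≤ N' ∧ N' ≤ Nhi ∧ pf (N' / (ρ * V)) * V ≤ a * E + a₂ * V ∧
    √ρ / 2 * (3 * N' / ρ - 3 * P * E / ρ - a * E - a₂ * V) - Fintype.card I * √R ≤ B

theorem bot2' : S_BOT2' := by
  intro X _ ν _ I _ en u M P ρ a a₂ N Nhi E R B V hm hu hu1 hcol hM hM0 hP hρ ha ha2 hN hNhi hE hR
    hB hV0 hV hcoh hpf hens
  obtain ⟨A, _, Φ, c, he⟩ := hens
  have hρs : 0 < √ρ := Real.sqrt_pos.2 hρ
  have hVM : V = Fintype.card I * M := by
    have hint : ∀ i ∈ (Finset.univ : Finset I), Integrable (u i) ν := fun i _ => by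
      refine Integrable.mono' (integrable_const (1 : ℝ)) (hm i).aestronglyMeasurable ?_
      refine Filter.Eventually.of_forall fun x => ?_
      rw [Real.norm_of_nonneg (hu i x)]
      exact hu1 i x
    have h1 : ∫ x, ∑ i, u i x ∂ν = Fintype.card I * M := by
      rw [integral_finsetSum _ hint, Finset.sum_congr rfl fun i _ => hM i, Finset.sum_const,
        Finset.card_univ, nsmul_eq_mul]
    have h2 : ∫ x, ∑ i, u i x ∂ν = V := by
      simp only [hcol]
      simp [hV, Measure.real]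
    rw [← h1, ← h2]
  -- the particle number
  have hnt : ∑' α, nuE ν (Φ α) ≠ ⊤ := (he.nhi.trans_lt ENNReal.ofReal_lt_top).ne
  obtain ⟨N', hN'0, hN'⟩ : ∃ s : ℝ, 0 ≤ s ∧ ∑' α, nuE ν (Φ α) = ENNReal.ofReal s :=
    ⟨_, ENNReal.toReal_nonneg, (ENNReal.ofReal_toReal hnt).symm⟩
  have hlo : N ≤ N' := by
    have h := he.nlo
    rw [hN', ENNReal.ofReal_le_ofReal_iff hN'0] at h
    exact h
  have hhi : N' ≤ Nhi := by
    have h := he.nhi
    rw [hN', ENNReal.ofReal_le_ofReal_iff hNhi] at h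
    exact h
  -- the sum of the convex functions
  set g : I → A → ℝ≥0∞ := fun i α => ∫⁻ γ,
      ENNReal.ofReal (pf (((ms γ).map (u i)).sum / (M * ρ))) * ‖Φ α (ms γ)‖ₑ ^ 2 ∂(lam ν) with hgd
  have hG : ENNReal.ofReal M * ∑ i, ∑' α, g i α ≤ ENNReal.ofReal (a * E + a₂ * V) := by
    calc ENNReal.ofReal M * ∑ i, ∑' α, g i α
        = ∑' α, ENNReal.ofReal M * ∑ i, g i α := by
          rw [ENNReal.tsum_mul_left]
          congr 1
          exact (Summable.tsum_finsetSum fun i _ => ENNReal.summable).symm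
      _ ≤ ∑' α, (ENNReal.ofReal a * en (Φ α) + ENNReal.ofReal (a₂ * V) * nE ν (Φ α)) :=
          ENNReal.tsum_le_tsum fun α => hpf _ (he.eb α)
      _ = ENNReal.ofReal a * ∑' α, en (Φ α) + ENNReal.ofReal (a₂ * V) := by
          rw [ENNReal.tsum_add, ENNReal.tsum_mul_left, ENNReal.tsum_mul_left, he.norm, mul_one]
      _ ≤ ENNReal.ofReal a * ENNReal.ofReal E + ENNReal.ofReal (a₂ * V) := by
          have := he.energy
          gcongr
      _ = _ := by
          rw [← ENNReal.ofReal_mul ha, ← ENNReal.ofReal_add (by positivity) (by positivity)]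
  have hcount : ∑ i, ∑' α, ∫⁻ γ, ENNReal.ofReal ((ms γ).map (u i)).sum *
      ‖Φ α (ms γ)‖ₑ ^ 2 ∂(lam ν) = ENNReal.ofReal N' := by
    rw [← hN', ← Summable.tsum_finsetSum fun i _ => ENNReal.summable]
    exact tsum_congr fun α => mecke_sum ν u hm hu hcol (Φ α) (he.eb α)
  refine ⟨N', hlo, hhi, ?_, ?_⟩
  · -- Jensen
    set k : ℝ := min (N' / (ρ * V)) 3 with hk
    have hk0 : 0 ≤ k := le_min (by positivity) (by norm_num)
    have hk3 : k ≤ 3 := min_le_right _ _
    have h1 : ENNReal.ofReal (2 * k / (M * ρ)) * ENNReal.ofReal N' ≤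
        (∑ i, ∑' α, g i α) + ENNReal.ofReal (k ^ 2) * ENNReal.ofReal (Fintype.card I) := by
      calc ENNReal.ofReal (2 * k / (M * ρ)) * ENNReal.ofReal N'
          = ∑ i, ∑' α, ENNReal.ofReal (2 * k / (M * ρ)) * ∫⁻ γ,
              ENNReal.ofReal ((ms γ).map (u i)).sum * ‖Φ α (ms γ)‖ₑ ^ 2 ∂(lam ν) := by
            rw [← hcount, Finset.mul_sum]
            exact Finset.sum_congr rfl fun i _ => ENNReal.tsum_mul_left.symm
        _ ≤ ∑ i, ∑' α, (g i α + ENNReal.ofReal (k ^ 2) * nE ν (Φ α)) :=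
            Finset.sum_le_sum fun i _ => ENNReal.tsum_le_tsum fun α =>
              lin ν (u i) (hu i) M ρ hM0 hρ (Φ α) (he.eb α) k hk0 hk3
        _ = _ := by
            have e : ∀ i, ∑' α, (g i α + ENNReal.ofReal (k ^ 2) * nE ν (Φ α)) =
                (∑' α, g i α) + ENNReal.ofReal (k ^ 2) := by
              intro i
              rw [ENNReal.tsum_add, ENNReal.tsum_mul_left, he.norm, mul_one]
            rw [Finset.sum_congr rfl fun i _ => e i, Finset.sum_add_distrib, Finset.sum_const,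
              Finset.card_univ, nsmul_eq_mul, ENNReal.ofReal_natCast, mul_comm (_ : ℝ≥0∞)
              (ENNReal.ofReal (k ^ 2))]
    have h2 : ENNReal.ofReal (2 * k * (N' / ρ)) ≤
        ENNReal.ofReal (a * E + a₂ * V + k ^ 2 * V) := by
      have h3 := mul_le_mul_right h1 (ENNReal.ofReal M)
      rw [mul_add, ← ENNReal.ofReal_mul (p := 2 * k / (M * ρ)) (by positivity),
        ← ENNReal.ofReal_mul hM0.le, ← ENNReal.ofReal_mul (p := k ^ 2) (by positivity),
        ← ENNReal.ofReal_mul hM0.le] at h3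
      have e1 : M * (2 * k / (M * ρ) * N') = 2 * k * (N' / ρ) := by
        field_simp
      have e2 : M * (k ^ 2 * (Fintype.card I : ℝ)) = k ^ 2 * V := by
        rw [hVM]; ring
      rw [e1, e2] at h3
      refine h3.trans ?_
      rw [ENNReal.ofReal_add (p := a * E + a₂ * V) (by positivity) (by positivity)]
      exact add_le_add hG le_rfl
    rw [ENNReal.ofReal_le_ofReal_iff (by positivity)] at h2
    rw [pf_eq, ← hk]
    have e3 : (2 * k * (N' / (ρ * V)) - k ^ 2) * V = 2 * k * (N' / ρ) - k ^ 2 * V := by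
      field_simp
    rw [e3]
    linarith
  · -- the amplitudes
    have hhalf : ∀ x : ℝ, 0 ≤ x → (ENNReal.ofReal x) ^ (1 / 2 : ℝ) = ENNReal.ofReal (√x) := by
      intro x hx
      rw [ENNReal.ofReal_rpow_of_nonneg hx (by norm_num), Real.sqrt_eq_rpow]
    have hcs : ∀ i, ∑' α, (nE ν (Φ α)) ^ (1 / 2 : ℝ) * (dev ν (u i) (c α i) (Φ α)) ^ (1 / 2 : ℝ) ≤
        ENNReal.ofReal (√R) := by
      intro i
      refine (Pool.Agent.W21.CB.cs_tsum _ _).trans ?_
      rw [he.norm, ENNReal.one_rpow, one_mul, ← hhalf R hR]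
      exact ENNReal.rpow_le_rpow (he.amp i) (by norm_num)
    have h1 : ENNReal.ofReal (3 * √ρ / (2 * M * ρ)) * ∑ i, ∑' α, nE ν (ag ν (u i) (Φ α)) ≤
        ENNReal.ofReal B + ENNReal.ofReal (Fintype.card I * √R) +
          ENNReal.ofReal (√ρ / 2 * (a * E + a₂ * V)) := by
      calc ENNReal.ofReal (3 * √ρ / (2 * M * ρ)) * ∑ i, ∑' α, nE ν (ag ν (u i) (Φ α))
          = ∑ i, ∑' α, ENNReal.ofReal (3 * √ρ / (2 * M * ρ)) * nE ν (ag ν (u i) (Φ α)) := by
            rw [Finset.mul_sum]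
            exact Finset.sum_congr rfl fun i _ => ENNReal.tsum_mul_left.symm
        _ ≤ ∑ i, ∑' α, (nE ν (Φ α) * ‖c α i‖ₑ +
              (nE ν (Φ α)) ^ (1 / 2 : ℝ) * (dev ν (u i) (c α i) (Φ α)) ^ (1 / 2 : ℝ) +
              ENNReal.ofReal (√ρ * M / 2) * g i α) :=
            Finset.sum_le_sum fun i _ => ENNReal.tsum_le_tsum fun α =>
              one_pair ν (u i) (hm i) (hu i) (hu1 i) M ρ (hM i) hM0 hρ (c α i) (Φ α) (he.eb α)
        _ = (∑' α, nE ν (Φ α) * ∑ i, ‖c α i‖ₑ) +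
              (∑ i, ∑' α, (nE ν (Φ α)) ^ (1 / 2 : ℝ) *
                (dev ν (u i) (c α i) (Φ α)) ^ (1 / 2 : ℝ)) +
              ENNReal.ofReal (√ρ * M / 2) * ∑ i, ∑' α, g i α := by
            have e : ∀ i, ∑' α, (nE ν (Φ α) * ‖c α i‖ₑ +
              (nE ν (Φ α)) ^ (1 / 2 : ℝ) * (dev ν (u i) (c α i) (Φ α)) ^ (1 / 2 : ℝ) +
              ENNReal.ofReal (√ρ * M / 2) * g i α) = (∑' α, nE ν (Φ α) * ‖c α i‖ₑ) +
              (∑' α, (nE ν (Φ α)) ^ (1 / 2 : ℝ) *
                (dev ν (u i) (c α i) (Φ α)) ^ (1 / 2 : ℝ)) +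
              ENNReal.ofReal (√ρ * M / 2) * ∑' α, g i α := by
              intro i
              rw [ENNReal.tsum_add, ENNReal.tsum_add, ENNReal.tsum_mul_left]
            rw [Finset.sum_congr rfl fun i _ => e i, Finset.sum_add_distrib,
              Finset.sum_add_distrib, ← Finset.mul_sum]
            congr 2
            simp only [Finset.mul_sum]
            exact (Summable.tsum_finsetSum fun i _ => ENNReal.summable).symm
        _ ≤ _ := by
            refine add_le_add (add_le_add he.coh ?_) ?_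
            · refine (Finset.sum_le_sum fun i _ => hcs i).trans_eq ?_
              rw [Finset.sum_const, Finset.card_univ, nsmul_eq_mul,
                ENNReal.ofReal_mul (by positivity), ENNReal.ofReal_natCast]
            · have h2 := mul_le_mul_right hG (ENNReal.ofReal (√ρ / 2))
              rw [← mul_assoc, ← ENNReal.ofReal_mul (by positivity),
                ← ENNReal.ofReal_mul (by positivity)] at h2
              rw [show √ρ * M / 2 = √ρ / 2 * M by ring]
              exact h2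
    have h3 : ENNReal.ofReal (M * N') ≤ (∑ i, ∑' α, nE ν (ag ν (u i) (Φ α))) +
        ENNReal.ofReal (M * P * E) := by
      calc ENNReal.ofReal (M * N') = ∑' α, ENNReal.ofReal M * nuE ν (Φ α) := by
            rw [ENNReal.tsum_mul_left, hN', ENNReal.ofReal_mul hM0.le]
        _ ≤ ∑' α, (∑ i, nE ν (ag ν (u i) (Φ α)) + ENNReal.ofReal (M * P) * en (Φ α)) :=
            ENNReal.tsum_le_tsum fun α => hcoh _ (he.eb α)
        _ = ∑ i, ∑' α, nE ν (ag ν (u i) (Φ α)) + ENNReal.ofReal (M * P) * ∑' α, en (Φ α) := by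
            rw [ENNReal.tsum_add, ENNReal.tsum_mul_left]
            congr 1
            exact Summable.tsum_finsetSum fun i _ => ENNReal.summable
        _ ≤ _ := by
            rw [ENNReal.ofReal_mul (p := M * P) (by positivity)]
            have := he.energy
            gcongr
    have h4 : ENNReal.ofReal (3 * √ρ / (2 * M * ρ) * (M * N')) ≤
        ENNReal.ofReal (B + Fintype.card I * √R + √ρ / 2 * (a * E + a₂ * V) +
          3 * √ρ / (2 * M * ρ) * (M * P * E)) := by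
      rw [ENNReal.ofReal_add (by positivity) (by positivity),
        ENNReal.ofReal_add (by positivity) (by positivity),
        ENNReal.ofReal_add hB (by positivity),
        ENNReal.ofReal_mul (p := 3 * √ρ / (2 * M * ρ)) (q := M * N') (by positivity),
        ENNReal.ofReal_mul (p := 3 * √ρ / (2 * M * ρ)) (q := M * P * E) (by positivity)]
      refine (mul_le_mul_right h3 _).trans ?_
      rw [mul_add]
      exact add_le_add h1 le_rfl
    rw [ENNReal.ofReal_le_ofReal_iff (by positivity)] at h4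
    have e1 : 3 * √ρ / (2 * M * ρ) * (M * N') = √ρ / 2 * (3 * N' / ρ) := by
      field_simp
    have e2 : 3 * √ρ / (2 * M * ρ) * (M * P * E) = √ρ / 2 * (3 * P * E / ρ) := by
      field_simp
    rw [e1, e2] at h4
    have e3 : √ρ / 2 * (3 * N' / ρ - 3 * P * E / ρ - a * E - a₂ * V) =
        √ρ / 2 * (3 * N' / ρ) - √ρ / 2 * (3 * P * E / ρ) - √ρ / 2 * (a * E + a₂ * V) := by ring
    rw [e3]
    linarith

end Pool.Agent.W160.CC
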